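import Pool.Agent.T6.H17.LW.Tate

/-!
# The Tate conjecture for products of arbitrary smooth varieties with abelian varieties and other
varieties with big symplectic monodromy

Let `k` be a finitely generated field of any characteristic, `Γ` its absolute Galois group, `K` an
algebraic closure of the field of `ℓ`-adic numbers.

Let `A i` (`i` in a finite set `I`) be abelian varieties over `k`, `V i` the first cohomology of `A i`
(coefficients extended to `K`), `ω i` the form of a polarization, `χ i` the inverse of the cyclotomic
character. We assume that `V i` has big monodromy (`BigMonodromy`): the Zariski closure of the
image of Galois contains the symplectic group. (For abelian varieties of type I or II in the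
classification of Albert the `V i` are the symplectic components of the first cohomology.) No two
of the `A i` are isogenous over a finite extension of `k`: for `i ≠ j`, `V i` and `V j` are not twists
of each other by a character. More generally `V i` is the primitive cohomology in odd degree of any
variety `X i` with big symplectic monodromy, for instance of a general hypersurface of odd dimension;
`ω i` is the cup product, it is the class of an algebraic cycle on `X i × X i`, a Künneth component
of the diagonal.

Let `U` be **any** smooth variety over `k`, proper or not, and let `M` be the cohomology of `U` in some
degree, or a Tate twist of it. It can be any representation of `Γ`; it is not assumed to be semisimple.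
We only assume that `M` is *unrelated* to the `V i` (`Unrelated`): this class of representations
contains all representations of dimension less than `dim (V i)`, all representations with an abelian
image (CM type, Tate twists), all representations in which one element of `Γ` acts semisimply which
does not act semisimply on `V i` (`U` has potentially good reduction at a place where `A i` does not),
all representations such that for one Frobenius element one eigenvalue on `V i` is multiplicatively
independent of the eigenvalues in it, all symplectic representations with big monodromy other than
the twists of `V i`; and it is closed under subrepresentations, quotients, extensions, exact sequences,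
tensor products and duals. So, for instance, `U` is any open subvariety, with boundary of the same kind,
of a product of any number of curves of genus `< g`, abelian varieties of dimension `< g`, surfaces with
second Betti number `< 2 g`, abelian varieties of CM type, and varieties with potentially
good reduction at a place where the `A i` have bad reduction, if the `A i` have dimension at least `g`.

The theorem: every multilinear map `h` from a product of spaces `V (c s)` (`s` in a finite set `S`) to
`M` which is equivariant under an open subgroup of `Γ` (that is, by duality, every Tate class in
`⊗ V (c s) ⊗ M` over a finite extension of `k`) is a linear combination of products of pairings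
`ω (c s)` of variables of the same kind, and of vectors `w` of `M` on which an open subgroup acts by
the product of the multipliers of these pairings (Tate classes of `U`).

As the pairings are classes of divisors on the squares `A i × A i`, and the cohomology of an abelian
variety is the exterior algebra of `V i`, this says that all Tate classes on `∏ (A i) ^ (n i) × U`, in all
codimensions, are linear combinations of products of classes of divisors on `∏ (A i) ^ (n i)` and Tate
classes on `U`: **the Tate conjecture for `∏ (A i) ^ (n i) × U` is equivalent to the Tate conjecture for
`U`**, whatever the numbers `n i` are.

The idea of the proof. Brackets of the logarithms of the unipotent parts and of additive functions of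
the eigenvalues of the elements of `Γ` act on all representations of `Γ` at the same time, compatibly
with all maps which are equivariant under subgroups of finite index. By Cartan's criterion and the
complement of an ideal for the Killing form, an irreducible action of these words either factors through
words which act by zero on it and by arbitrary operators of `sp (V i)` on `V i`, or `sp (V i)` acts on it;
then its dimension is at least `dim (V i)` (the joint weights of commuting `sl₂`-triples). Isomorphisms of
symplectic Lie algebras come from similitudes (extremal elements). The theorem follows by the first
fundamental theorem of invariant theory.
-/

set_option autoImplicit false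

namespace Pool.Agent.Results.MP_2a05c8_ag.BigMonodromyTimesUnrelated

open Module Pool.Agent.T6.H17.LW

/-- **Tate classes on products of powers of varieties with big symplectic monodromy with arbitrary
unrelated varieties.** -/
theorem result {K : Type} [Field K] [CharZero K] [IsAlgClosed K] {Γ : Type} [Group Γ]
    {I : Type} [Fintype I] [DecidableEq I] {V : I → Type} [∀ i, AddCommGroup (V i)]
    [∀ i, Module K (V i)] [∀ i, FiniteDimensional K (V i)]
    (ρ : ∀ i, Representation K Γ (V i)) (ω : ∀ i, V i →ₗ[K] V i →ₗ[K] K) (χ : I → Γ →* K)
    (hω : ∀ i, IsSymplectic (ρ i) (ω i) (χ i)) (hbig : ∀ i, BigMonodromy (ρ i) (ω i))
    (hdistinct : ∀ i j, i ≠ j → ∀ (c : Γ → K) (T : V i →ₗ[K] V j),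
      (∀ g v, T (ρ i g v) = c g • ρ j g (T v)) → T = 0)
    {M : Type} [AddCommGroup M] [Module K M] [FiniteDimensional K M] (τ : Representation K Γ M)
    (hτ : ∀ i, Unrelated (ρ i) (χ i) τ)
    {S : Type} [Fintype S] (c : S → I) (h : MultilinearMap K (fun s => V (c s)) M)
    (hh : ∃ Δ : Subgroup Γ, Δ.FiniteIndex ∧ ∀ g ∈ Δ, ∀ x,
      h (fun s => ρ (c s) g (x s)) = τ g (h x)) :
    h ∈ Submodule.span K {f | ∃ (m : ℕ) (e : Fin m × Fin 2 ≃ S) (w : M),
      (∃ Δ : Subgroup Γ, Δ.FiniteIndex ∧ ∀ g ∈ Δ, τ g w = (∏ l, χ (c (e (l, 0))) g) • w) ∧
      ∀ x, f x = (∏ l, pairing ω (c (e (l, 0))) (c (e (l, 1))) (x (e (l, 0))) (x (e (l, 1)))) •
        w} := by
  classical
  exact split hω hbig hdistinct hτ hh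

end Pool.Agent.Results.MP_2a05c8_ag.BigMonodromyTimesUnrelated
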