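import Pool.Agent.T6.H36.Defs

/-!
# The Tate conjecture for abelian varieties with a Frobenius element of prime order on the two-torsion

Let `n = 2 w h + 1` be a prime number, with an odd prime number `h` and `w = 1` or `w = 2`, and with
`n ≡ 3` or `5` modulo `8`: for instance `n = 11, 13, 29, 53, 59, 83, 107, 149, 173, ...`. Let `A` be an
abelian variety of dimension `g = (n - 1) / 2` over a finitely generated field `K` **of any
characteristic**. We assume that at **one** closed point of a model of `K`, with a residue field with
`q = p ^ a` elements (`a` odd, `p ≠ 2`, `p ≢ n` modulo `8`, `p ≠ n` and `p ^ h ≢ 1` modulo `n`), `A` has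
good reduction `B` and

* the Frobenius endomorphism of `B` has **order `n = 2 g + 1` on the points of order two** of `B`, or
* `B` is the Jacobian variety of the curve `y ^ 2 = f(x)`, with an **irreducible** polynomial `f` of
  degree `n` over the field with `q` elements.

Then **all Tate classes on all powers `A ^ r` of `A`**, in all codimensions, are linear combinations of
intersections of divisors; and for every open subvariety `U` of `A ^ r`, all classes on `U` in the image
of the cohomology of `A ^ r` (by the theory of weights, all classes) which are invariant under an open
subgroup `Δ` of the Galois group are combinations of classes of algebraic cycles.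

For finite fields `K` this is a statement on `B` itself: its Frobenius eigenvalues satisfy no other
multiplicative relations than `α ᾱ = q`.

`V` is the rational `ℓ`-adic Tate module of `A`, and the cohomology group `H^{2 m}(A ^ r, ℚ_ℓ)` is
the space of the alternating forms in `2 m` variables on `V ^ r`. For an open subvariety `U` the
subspace `W` is the kernel of the restriction `H^{2 m}(A ^ r) → H^{2 m}(U)`; a class `f` is invariant
under `Δ` on `U` if `s f - f ∈ W` for all `s ∈ Δ` (with the Tate twist). For `W = 0` this is the
conjecture for `A ^ r`.

The idea of the proof. The number `2` is a primitive root modulo `n`. So the characteristic polynomial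
of Frobenius is irreducible modulo two, its roots are congruent to the primitive `n`-th roots of unity
in the ring of Witt vectors of a finite field of characteristic two, and the Frobenius automorphism
of the Witt vectors permutes them cyclically. The multiplicative relations between the roots are a
representation of a cyclic group of order `2 w h`, with two irreducible odd components over `ℚ`. The
large component is excluded by the reduction modulo two: a relation gives a relation between the roots
of unity. The small component is excluded with the square roots of `± q` and of `n` in the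
unramified extensions of `ℚ₂`, by a comparison with the Galois action.
-/

set_option autoImplicit false

namespace Pool.Agent.Results.MP_2a05c8_ag.FrobeniusOfPrimeOrder

open Pool.Agent.H204R3.GP Pool.Agent.T6.H36

/-- **Abelian varieties with a Frobenius element of prime order `2 g + 1` on the points of order
two satisfy the Tate conjecture, with all their powers and the open subvarieties of these.** -/
theorem result {w h n p a : ℕ} (hw : w = 1 ∨ w = 2) (hh : h.Prime) (hodd : Odd h)
    (hn : n = 2 * w * h + 1) (hprime : n.Prime) (h8 : n % 8 = 3 ∨ n % 8 = 5)
    (hp : p.Prime) (hp2 : p ≠ 2) (ha : Odd a) (hp8 : p % 8 ≠ n % 8) (hpn : p ≠ n)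
    (hph : ((p : ℕ) : ZMod n) ^ h ≠ 1)
    {k V Γ : Type} [Field k] [CharZero k] [AddCommGroup V] [Module k V] [FiniteDimensional k V]
    [Group Γ] (hV : Module.finrank k V = n - 1)
    {ρ : Representation k Γ V} {χ : Γ →* k} {ω : V →ₗ[k] V →ₗ[k] k} (hR : IsTateModule ρ χ ω)
    (hF : FrobeniusOfPrimeOrder ρ χ p a n ∨ HyperellipticReduction ρ χ p a n)
    {D : ∀ r : ℕ, Set ((Fin r → V) [⋀^Fin 2]→ₗ[k] k)} (hD : IsDivisorClasses ρ χ D)
    (Δ : Subgroup Γ) (hΔ : Δ.FiniteIndex) (r m : ℕ)
    (W : Submodule k ((Fin r → V) [⋀^Fin m × Fin 2]→ₗ[k] k)) (hW : IsStable ρ Δ W)
    (f : (Fin r → V) [⋀^Fin m × Fin 2]→ₗ[k] k)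
    (hf : ∀ s ∈ Δ, pull ρ s f - χ s ^ m • f ∈ W) :
    f ∈ Submodule.span k (intersections D r m) ⊔ W := by
  have g : Comb.Good w h n := ⟨hw, hh, hodd, hn, hprime, h8⟩
  have h1 : TateGeneratedInDegreeTwo ρ χ := by
    rcases hF with hF | hF
    · exact generated_of_frobenius g hp hp2 ha hp8 hpn hph hR hF
    · exact generated_of_curve g hp hp2 ha hp8 hpn hph hR hV hF
  exact open_of_closed hD (mem_of_generated hD h1) Δ hΔ r m W hW f hf

end Pool.Agent.Results.MP_2a05c8_ag.FrobeniusOfPrimeOrder
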