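import Pool.Agent.T6.H17.LO.Tate

/-!
# The Tate conjecture for products of arbitrary smooth varieties with `K3` surfaces and other varieties
with big orthogonal monodromy

Let `k` be a finitely generated field of any characteristic, `Γ` its absolute Galois group, `K` an
algebraic closure of the field of `ℓ`-adic numbers.

Let `X i` (`i` in a finite set `I`) be `K3` surfaces over `k`, `V i` the transcendental part of the second
cohomology of `X i` (coefficients extended to `K`), `B i` the cup product. We assume that `V i` has
big monodromy (`BigMonodromy`): the Zariski closure of the image of Galois contains the special
orthogonal group. In characteristic zero this holds, by the Mumford–Tate conjecture for `K3` surfaces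
(Tankeev), if the endomorphisms of the transcendental Hodge structure are rational numbers. More
generally `V i` is the primitive or transcendental cohomology in an even degree of any variety `X i` with
big orthogonal monodromy, for instance of a general hypersurface of even dimension, of a general
cubic fourfold, of a general polarized hyperkähler variety; `B i` is the class of an algebraic cycle on
`X i × X i`, a component of the diagonal.

Let `U` be **any** smooth variety over `k`, proper or not, and let `M` be the cohomology of `U` in some
degree, or a Tate twist of it. It can be any representation of `Γ`; it is not assumed to be semisimple.
We only assume that `M` is *unrelated* to the `V i` (`Unrelated`): this class of representations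
contains all representations of dimension less than `dim (V i) - 2`, all representations with an abelian
image (CM type, Tate twists), all representations in which one element of `Γ` acts semisimply which
does not act semisimply on `V i` (`U` has potentially good reduction at a place where `X i` does not),
all representations such that for one Frobenius element the ratio of two eigenvalues on `V i` is
multiplicatively independent of the eigenvalues in it, all symplectic, orthogonal and general linear
representations with big monodromy the Lie algebra of which does not have the dimension of the
Lie algebra of `V i` (the first cohomology of the abelian varieties of dimension `g` with big monodromy, if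
`dim (V i) ≠ 2 g + 1`); and it is closed under subrepresentations, quotients, extensions, exact sequences,
tensor products and duals. So, for instance, if the `X i` are general `K3` surfaces (`dim (V i) = 21`),
`U` is any open subvariety, with boundary of the same kind, of a product of any number of curves of
genus at most 9, surfaces with second Betti number at most 19, abelian varieties of CM type, abelian
varieties of dimension `≠ 10` with big monodromy, and varieties with potentially good reduction at a
place where the `X i` have bad reduction.

The theorem: let `n i` be less than the dimension of `V i`. Every multilinear map `h` from a product of
spaces `V (c s)` (`s` in a finite set `S`, `n i` of them equal to `V i`) to `M` which is equivariant under an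
open subgroup of `Γ` (that is, by duality, every Tate class in `⊗ V (c s) ⊗ M` over a finite extension of
`k`) is a linear combination of products of pairings `B (c s)` of variables of the same kind, and of vectors
`w` of `M` on which an open subgroup acts by the product of the multipliers of these pairings (Tate
classes of `U`).

As the pairings are classes of algebraic cycles on the squares `X i × X i`, and the other classes in the
cohomology of `X i` are classes of divisors and points, this says that all Tate classes on
`∏ (X i) ^ (n i) × U`, in all codimensions, are linear combinations of products of known algebraic
classes and Tate classes on `U`: **the Tate conjecture for `∏ (X i) ^ (n i) × U` is equivalent to the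
Tate conjecture for `U`** if `n i < dim (V i)`.

The condition on the numbers `n i` cannot be dropped in this form: the determinant of `V i` is a Tate
class on `(X i) ^ (dim (V i))` over a quadratic extension, which is not generated by pairings.

The idea of the proof. Brackets of the logarithms of the unipotent parts and of additive functions of
the eigenvalues of the elements of `Γ` act on all representations of `Γ` at the same time, compatibly
with all maps which are equivariant under subgroups of finite index. By Cartan's criterion and the
complement of an ideal for the Killing form, an irreducible action of these words either factors through
words which act by zero on it and by arbitrary operators of `so (V i)` on `V i`, or `so (V i)` acts on it;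
then its dimension is at least `dim (V i) - 2` (the joint weights of the `sl₂`-triples of the short roots of
a subalgebra of type `B`). The theorem follows by the first fundamental theorem of invariant theory.
-/

set_option autoImplicit false

namespace Pool.Agent.Results.MP_2a05c8_ag.OrthogonalTimesUnrelated

open Module Pool.Agent.T6.H17.LO

/-- **Tate classes on products of powers of varieties with big orthogonal monodromy with arbitrary
unrelated varieties.** -/
theorem result {K : Type} [Field K] [CharZero K] [IsAlgClosed K] {Γ : Type} [Group Γ]
    {I : Type} [Fintype I] [DecidableEq I] {V : I → Type} [∀ i, AddCommGroup (V i)]
    [∀ i, Module K (V i)] [∀ i, FiniteDimensional K (V i)]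
    (ρ : ∀ i, Representation K Γ (V i)) (B : ∀ i, V i →ₗ[K] V i →ₗ[K] K) (χ : I → Γ →* K)
    (hB : ∀ i, IsOrthogonal (ρ i) (B i) (χ i)) (hbig : ∀ i, BigMonodromy (ρ i) (B i))
    (hdim : ∀ i, finrank K (V i) = 3 ∨ 5 ≤ finrank K (V i))
    (hdistinct : ∀ i j, i ≠ j → Unrelated (ρ i) (B i) (ρ j) ∨ Unrelated (ρ j) (B j) (ρ i))
    {M : Type} [AddCommGroup M] [Module K M] [FiniteDimensional K M] (τ : Representation K Γ M)
    (hτ : ∀ i, Unrelated (ρ i) (B i) τ)
    {S : Type} [Fintype S] (c : S → I) (hS : ∀ i, Nat.card {s // c s = i} < finrank K (V i))
    (h : MultilinearMap K (fun s => V (c s)) M)
    (hh : ∃ Δ : Subgroup Γ, Δ.FiniteIndex ∧ ∀ g ∈ Δ, ∀ x,
      h (fun s => ρ (c s) g (x s)) = τ g (h x)) :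
    h ∈ Submodule.span K {f | ∃ (m : ℕ) (e : Fin m × Fin 2 ≃ S) (w : M),
      (∃ Δ : Subgroup Γ, Δ.FiniteIndex ∧ ∀ g ∈ Δ, τ g w = (∏ l, χ (c (e (l, 0))) g) • w) ∧
      ∀ x, f x = (∏ l, pairing B (c (e (l, 0))) (c (e (l, 1))) (x (e (l, 0))) (x (e (l, 1)))) •
        w} := by
  classical
  exact split hB hdim hbig hdistinct hτ hS hh

end Pool.Agent.Results.MP_2a05c8_ag.OrthogonalTimesUnrelated
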