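import Pool.Agent.T6.H17.LU.Tate

/-!
# The Tate conjecture for products of arbitrary smooth varieties with powers of abelian varieties of
unitary type: divisor classes, Weil classes, and Tate classes of the other factor

Let `k` be a finitely generated field of any characteristic, `Γ` its absolute Galois group, `K` an
algebraic closure of the field of `ℓ`-adic numbers.

Let `A` be an abelian variety over `k` with multiplication by a CM field `E` (all of it defined over
`k`). Its first cohomology, with coefficients extended to `K`, is the direct sum of representations
`V σ`, of dimension `2 dim A / [E : ℚ]`, indexed by the embeddings `σ` of `E`, and a polarization pairs
`V σ` with `V σ*`, where `σ*` is the complex conjugate embedding (`IsPaired`). We assume that the `V σ`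
have big monodromy (`BigMonodromy`): the Zariski closure of the image of Galois in `GL (V σ)` contains
`SL (V σ)`. This is the case for the general abelian variety with multiplication by `E` and given
signatures. If `E` is imaginary quadratic, `dim A = 2 p`, and the signature is `(p, p)`, then `A` is an
abelian variety of **Weil type**: the determinants of the two representations `V σ`, `V σ*` are powers of the
cyclotomic character, up to characters of finite order, and give the Weil classes on `A`, of codimension
`p`. They are not combinations of products of divisor classes, if `p ≥ 2`. They are classes of algebraic
cycles by the theorem of Markman, if `p = 2`.

The index set `J` is, for several abelian varieties `A₁, …, A_t` of this kind, the disjoint union of the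
sets of embeddings. The representations `V i` and `V j` with `j ≠ i, i*` are assumed to be unrelated
(one way is sufficient), for instance because their dimensions are different, or because `V j` is not a
twist, by a character, of `V i` or of its dual.

Let `U` be **any** smooth variety over `k`, proper or not, and let `M` be the cohomology of `U` in some
degree, or a Tate twist of it. It can be any representation of `Γ`; it is not assumed to be semisimple.
We only assume that `M` is *unrelated* to the `V j` (`Unrelated`): this class of representations
contains all representations of dimension less than `dim (V j)`, all representations with an abelian
image (CM type, Tate twists), all representations in which one element of `Γ` acts semisimply which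
does not act semisimply on `V j` (`U` has potentially good reduction at a place where `A` does not),
all representations such that for one Frobenius element the ratio of two eigenvalues on `V j` is
multiplicatively independent of the eigenvalues in it, all symplectic, orthogonal and general linear
representations with big monodromy the Lie algebra of which does not have the dimension
`(dim V j)² - 1`; and it is closed under
subrepresentations, quotients, extensions, exact sequences, tensor products and duals. So, for instance,
`U` is any open subvariety, with boundary of the same kind, of a product of any number of curves of
genus less than `dim (V j) / 2`, surfaces with second Betti number less than `dim (V j) + 1`,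
abelian varieties of CM type, abelian varieties with big symplectic monodromy (if their Lie algebra does
not have the dimension `(dim V j)² - 1`), and varieties with potentially good reduction at a place where
`A` has bad reduction, not potentially good.

The theorem: every multilinear map `h` from a product of any number of spaces `V (c s)` (`s` in a
finite set `S`) to `M` which is equivariant under an open subgroup of `Γ` (that is, by duality, every Tate
class in `⊗ V (c s) ⊗ M` over a finite extension of `k`) is a linear combination of products of

* pairings `ω j j*` of two variables,
* determinants of `dim (V j)` variables in `V j` (`volume`), for a list `d` of indices `j` which is the same
  for all terms and does not contain both `j` and `j*` for any `j`,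
* a vector `w` of `M` on which an open subgroup acts by the product of the multipliers of the pairings
  and of the determinants of the `V j` for `j` in the list.

If the abelian varieties are of Weil type the `w` are Tate classes of `U`, and this says that all Tate
classes on `∏ (A i) ^ (n i) × U`, in all codimensions and for all `n i`, are linear combinations of
products of divisor classes (on the squares of the `A i`), Weil classes (pulled back to the powers of the
`A i` by sums of the coordinates) and Tate classes on `U`. So if the Weil classes of the `A i` are
algebraic, for instance if the `A i` are abelian fourfolds of Weil type in characteristic zero, **the Tate
conjecture for `∏ (A i) ^ (n i) × U` is equivalent to the Tate conjecture for `U`**. Note that there are no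
conditions on the numbers `n i`.

The idea of the proof. Brackets of the logarithms of the unipotent parts and of additive functions of
the eigenvalues of the elements of `Γ` act on all representations of `Γ` at the same time, compatibly
with all maps which are equivariant under subgroups of finite index. By Cartan's criterion and the
complement of an ideal for the Killing form, an irreducible action of these words either factors through
words which act by zero on it and by arbitrary operators of `sl (V j)` on `V j`, or `sl (V j)` acts on it.
An isomorphism of `sl (V i)` with `sl (V j)` preserves the extremal elements, which are the nilpotent
operators of rank one, so it comes from a twisted equivariant map from `V i` to `V j` or its dual. The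
multilinear map is then invariant under the product of the special linear groups, and the theorem follows
by the first fundamental theorem of invariant theory for them, where the weights under the
diagonal matrices give the list `d`.
-/

set_option autoImplicit false

namespace Pool.Agent.Results.MP_2a05c8_ag.UnitaryTimesUnrelated

open Module Pool.Agent.T6.H17.LU

/-- **Tate classes on products of powers of abelian varieties of unitary type with arbitrary unrelated
varieties.** -/
theorem result {K : Type} [Field K] [CharZero K] [IsAlgClosed K] {Γ : Type} [Group Γ]
    {J : Type} [Fintype J] [DecidableEq J] {V : J → Type} [∀ j, AddCommGroup (V j)]
    [∀ j, Module K (V j)] [∀ j, FiniteDimensional K (V j)] (star : J → J)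
    (ρ : ∀ j, Representation K Γ (V j)) (ω : ∀ i j, V i →ₗ[K] V j →ₗ[K] K) (χ : J → Γ →* K)
    (hω : IsPaired star ρ ω χ) (hbig : ∀ j, BigMonodromy (ρ j))
    (hdistinct : ∀ i j, j ≠ i → j ≠ star i → Unrelated (ρ i) (ρ j) ∨ Unrelated (ρ j) (ρ i))
    {M : Type} [AddCommGroup M] [Module K M] [FiniteDimensional K M] (τ : Representation K Γ M)
    (hτ : ∀ j, Unrelated (ρ j) τ) {S : Type} [Fintype S] (c : S → J)
    (h : MultilinearMap K (fun s => V (c s)) M)
    (hh : ∃ Δ : Subgroup Γ, Δ.FiniteIndex ∧ ∀ g ∈ Δ, ∀ x,
      h (fun s => ρ (c s) g (x s)) = τ g (h x)) :
    ∃ (r : ℕ) (d : Fin r → J), (∀ q q', d q' ≠ star (d q)) ∧
    h ∈ Submodule.span K {f | ∃ (m : ℕ) (e : Positions K V d m ≃ S) (w : M),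
      ActsBy τ (character ρ χ c e) w ∧ ∀ x, f x = product ω e x • w} := by
  classical
  exact split hω hbig hdistinct hτ hh

end Pool.Agent.Results.MP_2a05c8_ag.UnitaryTimesUnrelated
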